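import Pool.Agent.H96.KX.Targets

/-!
Module ONEC: one coordinate of the junta decomposition.
-/

set_option autoImplicit false

namespace Pool.Agent.H45.KX

open Finset Pool.Agent.H96.KX

/-- inner products of the centred indicators -/
theorem one_inner {H U Z : Type} [Fintype U] [Fintype Z] [DecidableEq Z]
    (h : H → U → Z) (hp : PairInd h) (θ : Z) (a a' : H) :
    (a ≠ a' → ∑ u, ((Fintype.card Z : ℝ) * (if h a u = θ then 1 else 0) - 1) *
      ((Fintype.card Z : ℝ) * (if h a' u = θ then 1 else 0) - 1) = 0) ∧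
    (a = a' → ∑ u, ((Fintype.card Z : ℝ) * (if h a u = θ then 1 else 0) - 1) *
      ((Fintype.card Z : ℝ) * (if h a' u = θ then 1 else 0) - 1) =
      ((Fintype.card Z : ℝ) - 1) * Fintype.card U) := by
  classical
  set Q : ℝ := (Fintype.card Z : ℝ) with hQ
  have h1 : ∀ b : H, (∑ u, (if h b u = θ then (1 : ℝ) else 0)) * Q = Fintype.card U := by
    intro b
    rw [Finset.sum_boole, hQ]
    exact_mod_cast hp.1 b θ
  have h2 : ∀ b b' : H, b ≠ b' →
      (∑ u, (if h b u = θ then (1 : ℝ) else 0) * (if h b' u = θ then 1 else 0)) * Q ^ 2 =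
        Fintype.card U := by
    intro b b' hb
    have e : ∀ u, (if h b u = θ then (1 : ℝ) else 0) * (if h b' u = θ then 1 else 0) =
        if (h b u = θ ∧ h b' u = θ) then 1 else 0 := by
      intro u
      by_cases q1 : h b u = θ <;> by_cases q2 : h b' u = θ <;> simp [q1, q2]
    rw [Finset.sum_congr rfl (fun u _ => e u), Finset.sum_boole, hQ]
    exact_mod_cast hp.2 b b' hb θ
  have hex : ∀ b b' : H, ∑ u, (Q * (if h b u = θ then (1 : ℝ) else 0) - 1) *
      (Q * (if h b' u = θ then 1 else 0) - 1) =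
      Q ^ 2 * (∑ u, (if h b u = θ then (1 : ℝ) else 0) * (if h b' u = θ then 1 else 0)) -
      Q * (∑ u, (if h b u = θ then (1 : ℝ) else 0)) -
      Q * (∑ u, (if h b' u = θ then (1 : ℝ) else 0)) + Fintype.card U := by
    intro b b'
    rw [Finset.mul_sum, Finset.mul_sum, Finset.mul_sum, ← Finset.sum_sub_distrib,
      ← Finset.sum_sub_distrib]
    have e : (Fintype.card U : ℝ) = ∑ _u : U, (1 : ℝ) := by simp
    rw [e, ← Finset.sum_add_distrib]
    refine Finset.sum_congr rfl fun u _ => ?_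
    ring
  refine ⟨fun hne => ?_, fun heq => ?_⟩
  · rw [hex]
    have e1 := h1 a
    have e2 := h1 a'
    have e3 := h2 a a' hne
    linarith
  · rw [← heq, hex]
    have e1 := h1 a
    have e3 : (∑ u, (if h a u = θ then (1 : ℝ) else 0) * (if h a u = θ then 1 else 0)) =
        ∑ u, (if h a u = θ then (1 : ℝ) else 0) := by
      refine Finset.sum_congr rfl fun u _ => ?_
      by_cases q1 : h a u = θ <;> simp [q1]
    rw [e3]
    have e4 : Q ^ 2 * (∑ u, (if h a u = θ then (1 : ℝ) else 0)) = Q * Fintype.card U := by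
      rw [← e1]
      ring
    rw [e4]
    linarith

theorem pf_ONEC : S_ONEC := by
  classical
  intro H U Z _ _ _ _ _ _ _ h hp g V mu hg hV hmu hex
  set Q : ℝ := (Fintype.card Z : ℝ) with hQ
  have hQ1 : (1 : ℝ) ≤ Q := by
    rw [hQ]
    exact_mod_cast Fintype.card_pos (α := Z)
  have hQ0 : 0 < Q := by linarith
  set G : ℝ := ∑ a, g a with hG
  have hsum : ∀ u, ∑ θ, V u θ = Q * G := by
    intro u
    rw [Finset.sum_congr rfl (fun θ _ => hV u θ), ← Finset.mul_sum, Finset.sum_comm]
    congr 1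
    refine Finset.sum_congr rfl fun a _ => ?_
    rw [Finset.sum_ite_eq Finset.univ (h a u) (fun _ => g a), if_pos (Finset.mem_univ _)]
  have hV0 : ∀ u θ, 0 ≤ V u θ := by
    intro u θ
    rw [hV]
    apply mul_nonneg hQ0.le
    apply Finset.sum_nonneg
    intro a _
    split_ifs
    · exact hg a
    · exact le_rfl
  have hcU : (0 : ℝ) ≤ (Fintype.card U : ℝ) := Nat.cast_nonneg _
  have hS0 : (0 : ℝ) ≤ ∑ a, g a ^ 2 := Finset.sum_nonneg fun a _ => sq_nonneg _
  refine ⟨?_, ?_⟩
  · have h1 : ∀ u, mu u ^ 2 ≤ (Fintype.card H : ℝ) * ∑ a, g a ^ 2 := by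
      intro u
      have e0 : 0 ≤ mu u := by
        obtain ⟨θ, hθ⟩ := hex u
        rw [hθ]
        exact hV0 u θ
      have e1 : mu u ≤ G := by
        have e2 : ∑ _θ : Z, mu u ≤ ∑ θ, V u θ := Finset.sum_le_sum fun θ _ => hmu u θ
        rw [hsum, Finset.sum_const, Finset.card_univ, nsmul_eq_mul, ← hQ] at e2
        exact le_of_mul_le_mul_left e2 hQ0
      have e3 : G ^ 2 ≤ (Fintype.card H : ℝ) * ∑ a, g a ^ 2 := by
        have := sq_sum_le_card_mul_sum_sq (s := (Finset.univ : Finset H)) (f := g)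
        rw [Finset.card_univ] at this
        exact this
      exact (pow_le_pow_left₀ e0 e1 2).trans e3
    calc ∑ u, mu u ^ 2 ≤ ∑ _u : U, (Fintype.card H : ℝ) * ∑ a, g a ^ 2 :=
          Finset.sum_le_sum fun u _ => h1 u
      _ = (Fintype.card U : ℝ) * Fintype.card H * ∑ a, g a ^ 2 := by
          rw [Finset.sum_const, Finset.card_univ, nsmul_eq_mul]
          ring
  · -- the key identity
    have hkey : ∀ θ, ∑ u, (V u θ - G) ^ 2 = (Q - 1) * Fintype.card U * ∑ a, g a ^ 2 := by
      intro θ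
      have e1 : ∀ u, V u θ - G = ∑ a, g a * (Q * (if h a u = θ then (1 : ℝ) else 0) - 1) := by
        intro u
        rw [hV, hG, Finset.mul_sum, ← Finset.sum_sub_distrib]
        refine Finset.sum_congr rfl fun a _ => ?_
        split_ifs
        · ring
        · ring
      have e2 : ∀ u, (V u θ - G) ^ 2 = ∑ a, ∑ a', g a * g a' *
          ((Q * (if h a u = θ then (1 : ℝ) else 0) - 1) *
            (Q * (if h a' u = θ then (1 : ℝ) else 0) - 1)) := by
        intro u
        rw [e1, sq, Finset.sum_mul_sum]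
        refine Finset.sum_congr rfl fun a _ => ?_
        refine Finset.sum_congr rfl fun a' _ => ?_
        ring
      rw [Finset.sum_congr rfl (fun u _ => e2 u), Finset.sum_comm, Finset.mul_sum]
      refine Finset.sum_congr rfl fun a _ => ?_
      rw [Finset.sum_comm, Finset.sum_eq_single a]
      · rw [← Finset.mul_sum, (one_inner h hp θ a a).2 rfl]
        ring
      · intro a' _ hne
        rw [← Finset.mul_sum, (one_inner h hp θ a a').1 hne.symm, mul_zero]
      · intro hn
        exact absurd (Finset.mem_univ a) hn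
    have h3 : ∀ u, ∑ θ, (V u θ - mu u) ^ 2 ≤ (1 + Q) * ∑ θ, (V u θ - G) ^ 2 := by
      intro u
      obtain ⟨θ0, hθ0⟩ := hex u
      have e1 : (G - mu u) ^ 2 ≤ ∑ θ, (V u θ - G) ^ 2 := by
        have e2 : (G - mu u) ^ 2 = (V u θ0 - G) ^ 2 := by
          rw [hθ0]
          ring
        rw [e2]
        exact Finset.single_le_sum (f := fun θ => (V u θ - G) ^ 2)
          (fun θ _ => sq_nonneg _) (Finset.mem_univ θ0)
      have e3 : ∑ θ, (V u θ - mu u) ^ 2 =
          ∑ θ, (V u θ - G) ^ 2 + 2 * (G - mu u) * ∑ θ, (V u θ - G) + Q * (G - mu u) ^ 2 := by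
        have e4 : Q * (G - mu u) ^ 2 = ∑ _θ : Z, (G - mu u) ^ 2 := by
          rw [Finset.sum_const, Finset.card_univ, nsmul_eq_mul]
        rw [e4, Finset.mul_sum, ← Finset.sum_add_distrib, ← Finset.sum_add_distrib]
        refine Finset.sum_congr rfl fun θ _ => ?_
        ring
      have e5 : ∑ θ, (V u θ - G) = 0 := by
        rw [Finset.sum_sub_distrib, hsum, Finset.sum_const, Finset.card_univ, nsmul_eq_mul]
        ring
      rw [e3, e5, mul_zero, add_zero]
      have e6 := mul_le_mul_of_nonneg_left e1 hQ0.le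
      linarith
    have h4 : ∑ u, ∑ θ, (V u θ - mu u) ^ 2 ≤
        (1 + Q) * (Q * ((Q - 1) * Fintype.card U * ∑ a, g a ^ 2)) := by
      calc ∑ u, ∑ θ, (V u θ - mu u) ^ 2 ≤ ∑ u, (1 + Q) * ∑ θ, (V u θ - G) ^ 2 :=
            Finset.sum_le_sum fun u _ => h3 u
        _ = (1 + Q) * ∑ θ, ∑ u, (V u θ - G) ^ 2 := by
            rw [← Finset.mul_sum, Finset.sum_comm]
        _ = (1 + Q) * (Q * ((Q - 1) * Fintype.card U * ∑ a, g a ^ 2)) := by
            rw [Finset.sum_congr rfl (fun θ _ => hkey θ), Finset.sum_const, Finset.card_univ,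
              nsmul_eq_mul]
    have h5 : ∑ u, ∑ θ, ((V u θ - mu u) / Q) ^ 2 =
        (∑ u, ∑ θ, (V u θ - mu u) ^ 2) / Q ^ 2 := by
      rw [Finset.sum_div]
      refine Finset.sum_congr rfl fun u _ => ?_
      rw [Finset.sum_div]
      refine Finset.sum_congr rfl fun θ _ => ?_
      rw [div_pow]
    rw [h5, div_le_iff₀ (by positivity)]
    refine h4.trans ?_
    have e7 : 0 ≤ (Fintype.card U : ℝ) * ∑ a, g a ^ 2 := mul_nonneg hcU hS0
    have e8 : (Fintype.card U : ℝ) * Q * (∑ a, g a ^ 2) * Q ^ 2 -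
        (1 + Q) * (Q * ((Q - 1) * Fintype.card U * ∑ a, g a ^ 2)) =
        Q * ((Fintype.card U : ℝ) * ∑ a, g a ^ 2) := by ring
    have e9 := mul_nonneg hQ0.le e7
    linarith

end Pool.Agent.H45.KX
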